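import Pool.Agent.H87PCG.PolyRed

/-!
Generalized PCG recognition is NP-hard.
-/

namespace Pool.Agent.Results.MP_9390ab_lc.GeneralizedHard

/-- **Generalized PCG recognition is NP-hard** (under polynomial-time many-one reductions, for
graphs given by adjacency matrices). -/
theorem result : Pool.Agent.NPC.NPHardP Pool.Agent.H87PCG.GenPCG :=
  Pool.Agent.H87PCG.genPCG_hard

end Pool.Agent.Results.MP_9390ab_lc.GeneralizedHard
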